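import Pool.Agent.Helper73.EUIdeal.Proof

namespace Pool.Agent.Results.MP_8a0632_lc.RBNotEU

open Pool.Agent.Helper73.EUIdeal

/-- There is an ideal on the natural numbers which is Rudin-Blass equivalent (hence Katetov
equivalent) to the density zero ideal but which is not an Erdos-Ulam ideal, and is not even
isomorphic to one. The ideal consists of all `A` such that the set of rounded down values
`log₂ (log₂ a)`, `a ∈ A`, has density zero. -/
theorem result : ∃ I : Set (Set ℕ),
    (∀ A : Set ℕ, A ∈ I ↔ (fun a => Nat.log 2 (Nat.log 2 a)) '' A ∈ densityZero) ∧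
    IsIdeal I ∧ (RBle I densityZero ∧ RBle densityZero I) ∧
    (Kle I densityZero ∧ Kle densityZero I) ∧
    (∀ f : ℕ → ℝ, IsEUWeight f → I ≠ EU f) ∧
    ∀ f : ℕ → ℝ, IsEUWeight f → ∀ σ : Equiv.Perm ℕ, I ≠ {A | σ '' A ∈ EU f} :=
  main

end Pool.Agent.Results.MP_8a0632_lc.RBNotEU
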